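import Mathlib

set_option autoImplicit false

/-!
# A matroid polytope inside a matroid polytope which is not a cell of any matroid subdivision

`M` is the matroid of rank `3` on `8` elements whose elements `0, ..., 5` form the cycle matroid of
`K₄` (lines `012`, `034`, `135`, `245`) and whose elements `6`, `7` are added freely. `M'` is the
matroid of rank `3` in which `0, ..., 5` span a line with the three parallel classes `01`, `24`,
`35` and `6`, `7` are free. Then `P_{M'} ⊂ P_M`, and a matroid subdivision with the cell `P_{M'}`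
would have a cell `P_N` on the other side of the facet `x_0 + ... + x_5 = 2` of `P_{M'}`; a few basis
exchanges show that there is no such matroid `N`.
-/

namespace Pool.Agent.Results.MP_454fc7_co.NotACell

open Set Filter Topology

/-- The vector `e_B`. -/
noncomputable def ind {n : ℕ} (B : Set (Fin n)) : Fin n → ℝ := B.indicator fun _ => 1

/-- The matroid polytope `P_M`. -/
def poly {n : ℕ} (M : Matroid (Fin n)) : Set (Fin n → ℝ) :=
  convexHull ℝ {x | ∃ B, M.IsBase B ∧ x = ind B}

/-- `Q` is a face of the polytope `P`: it is empty or the set of the points of `P` where some linear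
functional takes its maximum on `P` (so `P` is a face of `P`). -/
def IsFace {n : ℕ} (Q P : Set (Fin n → ℝ)) : Prop :=
  Q = ∅ ∨ ∃ c : Fin n → ℝ, Q = {x | x ∈ P ∧ ∀ y ∈ P, ∑ i, c i * y i ≤ ∑ i, c i * x i}

/-- The matroid `M` is connected: it is not the direct sum of two matroids on nonempty ground
sets. -/
def IsConnected {n : ℕ} (M : Matroid (Fin n)) : Prop :=
  ∀ (M₁ M₂ : Matroid (Fin n)) (h : Disjoint M₁.E M₂.E), M₁.E.Nonempty → M₂.E.Nonempty →
    M ≠ M₁.disjointSum M₂ h

/-- The polytopes `P_N`, `N ∈ 𝒞`, are the (maximal) cells of a matroid subdivision of `P_M`: their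
union is `P_M`, any two of them meet in a common face, and none is properly contained in another. -/
structure IsMatroidSubdivision {n : ℕ} (M : Matroid (Fin n)) (𝒞 : Set (Matroid (Fin n))) : Prop where
  ground : ∀ N ∈ 𝒞, N.E = univ
  cover : ⋃ N ∈ 𝒞, poly N = poly M
  face : ∀ N ∈ 𝒞, ∀ N' ∈ 𝒞, IsFace (poly N ∩ poly N') (poly N) ∧ IsFace (poly N ∩ poly N') (poly N')
  maximal : ∀ N ∈ 𝒞, ∀ N' ∈ 𝒞, poly N ⊆ poly N' → poly N = poly N'

section general

variable {n : ℕ}

theorem ind_mem {M : Matroid (Fin n)} {B : Set (Fin n)} (h : M.IsBase B) : ind B ∈ poly M :=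
  subset_convexHull ℝ _ ⟨B, h, rfl⟩

theorem le_of_poly {M : Matroid (Fin n)} {c : Fin n → ℝ} {k : ℝ}
    (h : ∀ B, M.IsBase B → ∑ i, c i * ind B i ≤ k) : ∀ x ∈ poly M, ∑ i, c i * x i ≤ k := by
  intro x hx
  have hl : IsLinearMap ℝ (fun x : Fin n → ℝ => ∑ i, c i * x i) :=
    { map_add := fun x y => by
        simp only [Pi.add_apply, mul_add, Finset.sum_add_distrib]
      map_smul := fun a x => by
        simp only [Pi.smul_apply, smul_eq_mul, Finset.mul_sum]
        exact Finset.sum_congr rfl fun i _ => by ring }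
  exact convexHull_min (by rintro _ ⟨B, hB, rfl⟩; exact h B hB) (convex_halfSpace_le hl k) hx

theorem isBase_of_mem {M : Matroid (Fin n)} {B : Set (Fin n)} (h : ind B ∈ poly M) :
    M.IsBase B := by
  classical
  by_contra hB
  have h1 := le_of_poly (M := M) (c := fun i => if i ∈ B then (1 : ℝ) else -1)
    (k := (∑ i, (if i ∈ B then (1 : ℝ) else -1) * ind B i) - 1) ?_ _ h
  · linarith
  intro B' hB'
  obtain ⟨j, hj⟩ : ∃ j, ¬ (j ∈ B ↔ j ∈ B') := by
    by_contra hcon
    push Not at hcon
    exact hB ((Set.ext hcon) ▸ hB')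
  have hnn : ∀ i, 0 ≤ (if i ∈ B then (1 : ℝ) else -1) * ind B i -
      (if i ∈ B then (1 : ℝ) else -1) * ind B' i := by
    intro i
    unfold ind Set.indicator
    split_ifs <;> norm_num
  have h2 : 1 ≤ (if j ∈ B then (1 : ℝ) else -1) * ind B j -
      (if j ∈ B then (1 : ℝ) else -1) * ind B' j := by
    unfold ind Set.indicator
    split_ifs with h3 h4 h4
    · exact absurd (iff_of_true h3 h4) hj
    · norm_num
    · norm_num
    · exact absurd (iff_of_false h3 h4) hj
  have h3 := Finset.single_le_sum (fun i _ => hnn i) (Finset.mem_univ j)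
  rw [Finset.sum_sub_distrib] at h3
  linarith

theorem connected_of {M : Matroid (Fin n)}
    (h : ∀ i j, i ≠ j → ∃ B, M.IsBase B ∧ i ∈ B ∧ j ∉ B ∧ M.IsBase (insert j (B \ {i}))) :
    IsConnected M := by
  intro M₁ M₂ hd h1 h2 hM
  obtain ⟨i, hi⟩ := h1
  obtain ⟨j, hj⟩ := h2
  have hij : i ≠ j := fun hij => Set.disjoint_left.mp hd hi (hij ▸ hj)
  have hj1 : j ∉ M₁.E := fun h' => Set.disjoint_left.mp hd h' hj
  obtain ⟨B, hB, hiB, hjB, hB'⟩ := h i j hij
  rw [hM, Matroid.disjointSum_isBase_iff] at hB hB'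
  have hsub : insert j (B \ {i}) ∩ M₁.E ⊆ B ∩ M₁.E := by
    rintro x ⟨hx | hx, hx1⟩
    · exact absurd (hx ▸ hx1) hj1
    · exact ⟨hx.1, hx1⟩
  have heq := hB'.1.eq_of_subset_isBase hB.1 hsub
  have : i ∈ insert j (B \ {i}) ∩ M₁.E := by rw [heq]; exact ⟨hiB, hi⟩
  rcases this.1 with h' | h'
  · exact hij h'
  · exact h'.2 rfl

theorem poly_closed (M : Matroid (Fin n)) : IsClosed (poly M) := by
  apply Set.Finite.isClosed_convexHull
  refine (Set.finite_range (ind (n := n))).subset ?_
  rintro _ ⟨B, -, rfl⟩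
  exact ⟨B, rfl⟩

end general

/-! ### Subsets of `Fin 8` as bit masks -/

/-- the set with the bit mask `m` -/
def st (m : ℕ) : Set (Fin 8) := {i | m.testBit i = true}

theorem mem_st {m : ℕ} {i : Fin 8} : i ∈ st m ↔ m.testBit i = true := Iff.rfl

theorem exists_st (B : Set (Fin 8)) : ∃ m < 256, B = st m := by
  classical
  refine ⟨Nat.ofBits (fun i : Fin 8 => decide (i ∈ B)), ?_, ?_⟩
  · have := Nat.ofBits_lt_two_pow (fun i : Fin 8 => decide (i ∈ B))
    simpa using this
  · ext i
    rw [mem_st, Nat.testBit_ofBits_lt _ _ i.2]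
    simp

theorem st_inj {a b : ℕ} (ha : a < 256) (hb : b < 256) (h : st a = st b) : a = b := by
  apply Nat.eq_of_testBit_eq
  intro i
  by_cases hi : i < 8
  · have h1 : (⟨i, hi⟩ : Fin 8) ∈ st a ↔ (⟨i, hi⟩ : Fin 8) ∈ st b := by rw [h]
    exact Bool.eq_iff_iff.mpr h1
  · have h2 : 2 ^ 8 ≤ 2 ^ i := Nat.pow_le_pow_right (by norm_num) (by omega)
    rw [Nat.testBit_lt_two_pow (lt_of_lt_of_le ha h2), Nat.testBit_lt_two_pow (lt_of_lt_of_le hb h2)]

theorem st_exch {a : ℕ} {e f : Fin 8} (he : a.testBit e = true) (hf : ¬ a.testBit f = true) :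
    st (a ^^^ 2 ^ (e : ℕ) ^^^ 2 ^ (f : ℕ)) = insert f (st a \ {e}) := by
  have hef : e ≠ f := fun h => hf (h ▸ he)
  ext i
  rw [mem_st, Nat.testBit_xor, Nat.testBit_xor, Nat.testBit_two_pow, Nat.testBit_two_pow,
    Set.mem_insert_iff, Set.mem_diff, Set.mem_singleton_iff, mem_st]
  have h1 : ((e : ℕ) = (i : ℕ)) ↔ i = e := by rw [Fin.ext_iff]; exact eq_comm
  have h2 : ((f : ℕ) = (i : ℕ)) ↔ i = f := by rw [Fin.ext_iff]; exact eq_comm
  simp only [h1, h2]
  by_cases hie : i = e
  · subst hie
    simp [he, hef]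
  · by_cases hif : i = f
    · subst hif
      have hf' : a.testBit i = false := by simpa using hf
      simp [hf', hie]
    · simp [hie, hif]

/-- the exchange property of the family of sets with the masks in the table `T` -/
def exch (T : ℕ) : Bool :=
  (List.range 256).all fun a => !T.testBit a || (List.range 256).all fun b => !T.testBit b ||
    (List.range 8).all fun e => !(a.testBit e && !b.testBit e) || (List.range 8).any fun f =>
      b.testBit f && !a.testBit f && T.testBit (a ^^^ 2 ^ e ^^^ 2 ^ f)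

theorem xor_lt {a e f : ℕ} (ha : a < 256) (he : e < 8) (hf : f < 8) : a ^^^ 2 ^ e ^^^ 2 ^ f < 256 := by
  have h1 : 2 ^ e < 2 ^ 8 := Nat.pow_lt_pow_right (by norm_num) he
  have h2 : 2 ^ f < 2 ^ 8 := Nat.pow_lt_pow_right (by norm_num) hf
  exact Nat.xor_lt_two_pow (n := 8) (Nat.xor_lt_two_pow (n := 8) ha h1) h2

/-- the matroid on `Fin 8` with the table `T` of bases -/
def mat (T : ℕ) (h0 : ∃ m < 256, T.testBit m = true) (h : exch T = true) : Matroid (Fin 8) :=
  Matroid.ofIsBaseOfFinite (E := univ) finite_univ (fun B => ∃ m < 256, T.testBit m = true ∧ B = st m)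
    (by obtain ⟨m, hm, hT⟩ := h0; exact ⟨st m, m, hm, hT, rfl⟩)
    (by
      rintro _ _ ⟨a, ha, hTa, rfl⟩ ⟨b, hb, hTb, rfl⟩ e he
      unfold exch at h
      rw [List.all_eq_true] at h
      have h1 := h a (List.mem_range.mpr ha)
      rw [hTa, Bool.not_true, Bool.false_or, List.all_eq_true] at h1
      have h2 := h1 b (List.mem_range.mpr hb)
      rw [hTb, Bool.not_true, Bool.false_or, List.all_eq_true] at h2
      have h3 := h2 e (List.mem_range.mpr e.2)
      have he1 : a.testBit e = true := he.1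
      have he2 : b.testBit e = false := by
        have : ¬ b.testBit e = true := he.2
        simpa using this
      rw [he1, he2] at h3
      simp only [Bool.not_false, Bool.and_self, Bool.not_true, Bool.false_or, List.any_eq_true,
        Bool.and_eq_true, Bool.not_eq_true', List.mem_range] at h3
      obtain ⟨f, hf, ⟨hf1, hf2⟩, hf3⟩ := h3
      have hf2' : ¬ a.testBit (⟨f, hf⟩ : Fin 8) = true := by simp [hf2]
      refine ⟨⟨f, hf⟩, ⟨hf1, hf2'⟩, a ^^^ 2 ^ (e : ℕ) ^^^ 2 ^ f, xor_lt ha e.2 hf, hf3, ?_⟩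
      exact (st_exch (f := ⟨f, hf⟩) he1 hf2').symm)
    (fun _ _ => subset_univ _)

theorem mat_isBase {T : ℕ} {h0 : ∃ m < 256, T.testBit m = true} {h : exch T = true} {m : ℕ}
    (hm : m < 256) : (mat T h0 h).IsBase (st m) ↔ T.testBit m = true := by
  change (∃ m' < 256, T.testBit m' = true ∧ st m = st m') ↔ _
  constructor
  · rintro ⟨m', hm', hT, he⟩
    rw [st_inj hm hm' he]
    exact hT
  · intro hT
    exact ⟨m, hm, hT, rfl⟩

/-- sufficient for connectedness -/
def conn (T : ℕ) : Bool :=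
  (List.range 8).all fun i => (List.range 8).all fun j => Nat.beq i j || (List.range 256).any fun b =>
    T.testBit b && b.testBit i && !b.testBit j && T.testBit (b ^^^ 2 ^ i ^^^ 2 ^ j)

theorem mat_connected {T : ℕ} {h0 : ∃ m < 256, T.testBit m = true} {h : exch T = true}
    (hc : conn T = true) : IsConnected (mat T h0 h) := by
  apply connected_of
  intro i j hij
  unfold conn at hc
  rw [List.all_eq_true] at hc
  have h1 := hc i (List.mem_range.mpr i.2)
  rw [List.all_eq_true] at h1
  have h2 := h1 j (List.mem_range.mpr j.2)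
  have hne : Nat.beq (i : ℕ) (j : ℕ) = false := by
    rw [Bool.eq_false_iff]
    intro h'
    exact hij (Fin.ext (Nat.eq_of_beq_eq_true h'))
  rw [hne, Bool.false_or] at h2
  simp only [List.any_eq_true, Bool.and_eq_true, Bool.not_eq_true', List.mem_range] at h2
  obtain ⟨b, hb, ⟨⟨hb1, hb2⟩, hb3⟩, hb4⟩ := h2
  have hb3' : ¬ b.testBit j = true := by simp [hb3]
  refine ⟨st b, (mat_isBase hb).mpr hb1, hb2, hb3', ?_⟩
  rw [← st_exch hb2 hb3']
  exact (mat_isBase (xor_lt hb i.2 j.2)).mpr hb4

/-! ### The two matroids -/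

/-- the table of the bases of `M` -/
def TM : ℕ := 26960359788324348720949767030734241706367231428990559567628779153408
/-- the table of the bases of `M'` -/
def TP : ℕ := 26960359788324348346804991059377659200603713027810315325185957298176

theorem exch_TM : exch TM = true := by decide +kernel
theorem exch_TP : exch TP = true := by decide +kernel
theorem conn_TM : conn TM = true := by decide +kernel
theorem conn_TP : conn TP = true := by decide +kernel
theorem sub_T : ((List.range 256).all fun m => !TP.testBit m || TM.testBit m) = true := by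
  decide +kernel

/-- the matroid `M` -/
def MM : Matroid (Fin 8) := mat TM ⟨11, by norm_num, by decide +kernel⟩ exch_TM
/-- the matroid `M'` -/
def MP : Matroid (Fin 8) := mat TP ⟨69, by norm_num, by decide +kernel⟩ exch_TP

theorem MM_isBase {m : ℕ} (hm : m < 256) : MM.IsBase (st m) ↔ TM.testBit m = true := mat_isBase hm
theorem MP_isBase {m : ℕ} (hm : m < 256) : MP.IsBase (st m) ↔ TP.testBit m = true := mat_isBase hm

theorem MP_sub {B : Set (Fin 8)} (h : MP.IsBase B) : MM.IsBase B := by
  obtain ⟨m, hm, rfl⟩ := exists_st B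
  rw [MP_isBase hm] at h
  rw [MM_isBase hm]
  have h1 := sub_T
  rw [List.all_eq_true] at h1
  have h2 := h1 m (List.mem_range.mpr hm)
  rw [h, Bool.not_true, Bool.false_or] at h2
  exact h2

theorem poly_sub : poly MP ⊆ poly MM :=
  convexHull_mono (by rintro _ ⟨B, hB, rfl⟩; exact ⟨B, MP_sub hB, rfl⟩)

/-! ### The exchange argument -/

/-- the bases of `M'` containing `6` and not `7` -/
def H : Finset ℕ := {69, 73, 81, 97, 70, 74, 82, 98, 76, 100, 88, 112}

/-- `c = (u, h, e, d)`: the set `u` is not a basis, because `h` is a basis and all exchanges of `e` (in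
`u` if `d` is false, in `h` otherwise) lead to sets of the list `K` of non-bases -/
def okStep (K : List ℕ) (c : ℕ × ℕ × ℕ × Bool) : Bool :=
  decide (c.2.1 ∈ H) && Nat.ble (c.2.2.1 + 1) 8 &&
  (match c.2.2.2 with
  | false => c.1.testBit c.2.2.1 && !c.2.1.testBit c.2.2.1 && (List.range 8).all fun f =>
      !(c.2.1.testBit f && !c.1.testBit f) || K.elem (c.1 ^^^ 2 ^ c.2.2.1 ^^^ 2 ^ f)
  | true => c.2.1.testBit c.2.2.1 && !c.1.testBit c.2.2.1 && (List.range 8).all fun f =>
      !(c.1.testBit f && !c.2.1.testBit f) || K.elem (c.2.1 ^^^ 2 ^ c.2.2.1 ^^^ 2 ^ f))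

/-- check a list of steps -/
def run : List ℕ → List (ℕ × ℕ × ℕ × Bool) → Bool
  | _, [] => true
  | K, c :: cs => okStep K c && run (c.1 :: K) cs

theorem okStep_sound {β : ℕ → Prop} (hex : ∀ a b, β a → β b → ∀ e < 8, a.testBit e = true →
      b.testBit e = false → ∃ f < 8, b.testBit f = true ∧ a.testBit f = false ∧
        β (a ^^^ 2 ^ e ^^^ 2 ^ f)) (hH : ∀ h ∈ H, β h) {K : List ℕ} (hK : ∀ k ∈ K, ¬ β k)
    {c : ℕ × ℕ × ℕ × Bool} (hc : okStep K c = true) : ¬ β c.1 := by
  intro hu
  obtain ⟨u, h, e, d⟩ := c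
  unfold okStep at hc
  simp only [Bool.and_eq_true, decide_eq_true_eq] at hc
  obtain ⟨⟨hh, he⟩, hc⟩ := hc
  have he8 : e < 8 := Nat.le_of_ble_eq_true he
  cases d with
  | false =>
    simp only [Bool.and_eq_true, Bool.not_eq_true', List.all_eq_true, List.mem_range] at hc
    obtain ⟨⟨h1, h2⟩, h3⟩ := hc
    obtain ⟨f, hf, hf1, hf2, hf3⟩ := hex u h hu (hH h hh) e he8 h1 h2
    have h4 := h3 f hf
    rw [hf1, hf2] at h4
    simp only [Bool.not_false, Bool.and_self, Bool.not_true, Bool.false_or] at h4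
    exact hK _ (List.elem_iff.mp h4) hf3
  | true =>
    simp only [Bool.and_eq_true, Bool.not_eq_true', List.all_eq_true, List.mem_range] at hc
    obtain ⟨⟨h1, h2⟩, h3⟩ := hc
    obtain ⟨f, hf, hf1, hf2, hf3⟩ := hex h u (hH h hh) hu e he8 h1 h2
    have h4 := h3 f hf
    rw [hf1, hf2] at h4
    simp only [Bool.not_false, Bool.and_self, Bool.not_true, Bool.false_or] at h4
    exact hK _ (List.elem_iff.mp h4) hf3

theorem run_sound {β : ℕ → Prop} (hex : ∀ a b, β a → β b → ∀ e < 8, a.testBit e = true →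
      b.testBit e = false → ∃ f < 8, b.testBit f = true ∧ a.testBit f = false ∧
        β (a ^^^ 2 ^ e ^^^ 2 ^ f)) (hH : ∀ h ∈ H, β h) :
    ∀ (cs : List (ℕ × ℕ × ℕ × Bool)) (K : List ℕ), (∀ k ∈ K, ¬ β k) → run K cs = true →
      ∀ c ∈ cs, ¬ β c.1
  | [], _, _, _, c, hc => by simp at hc
  | c :: cs, K, hK, hr, c', hc' => by
    unfold run at hr
    rw [Bool.and_eq_true] at hr
    have h1 := okStep_sound hex hH hK hr.1
    rcases List.mem_cons.mp hc' with rfl | h2
    · exact h1
    · exact run_sound hex hH cs (c.1 :: K) (by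
        intro k hk
        rcases List.mem_cons.mp hk with rfl | hk
        · exact h1
        · exact hK k hk) hr.2 c' h2

/-- the steps -/
def steps : List (ℕ × ℕ × ℕ × Bool) :=
  [(11, 69, 3, false), (19, 69, 4, false), (35, 69, 5, false), (21, 100, 0, false),
    (13, 81, 6, true), (41, 74, 0, false), (37, 73, 6, true), (49, 69, 6, true),
    (14, 69, 6, true), (22, 69, 1, false), (38, 69, 6, true), (26, 69, 6, true),
    (50, 69, 6, true), (28, 69, 3, false), (44, 69, 6, true), (56, 69, 4, false)]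

theorem run_steps : run [7, 25, 42, 52, 67, 84, 104] steps = true := by decide +kernel

theorem steps_all : ((List.range 256).all fun u => !TM.testBit u || u.testBit 6 || u.testBit 7 ||
    (steps.map Prod.fst).elem u) = true := by decide +kernel

theorem lines_not : ([7, 25, 42, 52].all fun u => !TM.testBit u) = true := by decide +kernel
theorem pairs_not : ([67, 84, 104].all fun u => !TP.testBit u) = true := by decide +kernel
theorem H_base : ∀ m ∈ H, TP.testBit m = true ∧ m < 256 := by decide +kernel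

/-- The exchange argument: no matroid `N` fits on the other side of the facet. -/
theorem no_matroid (N : Matroid (Fin 8)) (h1 : ∀ B, N.IsBase B → MM.IsBase B)
    (h2 : ∀ m ∈ H, N.IsBase (st m)) (h3 : ∀ m ∈ [67, 84, 104], ¬ N.IsBase (st m))
    {B : Set (Fin 8)} (hB : N.IsBase B) (h6 : (6 : Fin 8) ∉ B) (h7 : (7 : Fin 8) ∉ B) : False := by
  have hex : ∀ a b, N.IsBase (st a) → N.IsBase (st b) → ∀ e < 8, a.testBit e = true →
      b.testBit e = false → ∃ f < 8, b.testBit f = true ∧ a.testBit f = false ∧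
        N.IsBase (st (a ^^^ 2 ^ e ^^^ 2 ^ f)) := by
    intro a b ha hb e he hea heb
    have heb' : (⟨e, he⟩ : Fin 8) ∉ st b := by rw [mem_st]; simp [heb]
    obtain ⟨f, ⟨hf1, hf2⟩, hf3⟩ := ha.exchange hb (e := ⟨e, he⟩) ⟨hea, heb'⟩
    have hf2' : ¬ a.testBit f = true := hf2
    refine ⟨f, f.2, hf1, by simpa using hf2', ?_⟩
    have := st_exch (e := ⟨e, he⟩) (f := f) hea hf2'
    simp only at this
    rw [this]
    exact hf3
  have hK : ∀ k ∈ [7, 25, 42, 52, 67, 84, 104], ¬ N.IsBase (st k) := by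
    intro k hk hN
    have hl := lines_not
    rw [List.all_eq_true] at hl
    have hk' : k ∈ [7, 25, 42, 52] ∨ k ∈ [67, 84, 104] := by
      simp only [List.mem_cons, List.not_mem_nil, or_false] at hk ⊢
      tauto
    rcases hk' with hk | hk
    · have h4 := hl k hk
      have h5 := h1 _ hN
      have hk256 : k < 256 := by
        simp only [List.mem_cons, List.not_mem_nil, or_false] at hk
        omega
      rw [MM_isBase hk256] at h5
      rw [h5] at h4
      exact absurd h4 (by decide)
    · exact h3 k hk hN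
  obtain ⟨u, hu, rfl⟩ := exists_st B
  have h4 := h1 _ hB
  rw [MM_isBase hu] at h4
  have h5 := steps_all
  rw [List.all_eq_true] at h5
  have h6' : u.testBit 6 = false := by
    have : ¬ u.testBit ((6 : Fin 8) : ℕ) = true := h6
    simpa using this
  have h7' : u.testBit 7 = false := by
    have : ¬ u.testBit ((7 : Fin 8) : ℕ) = true := h7
    simpa using this
  have h8 := h5 u (List.mem_range.mpr hu)
  rw [h4, h6', h7', Bool.not_true, Bool.false_or, Bool.false_or, Bool.false_or, List.elem_iff,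
    List.mem_map] at h8
  obtain ⟨c, hc, rfl⟩ := h8
  exact run_sound (β := fun m => N.IsBase (st m)) hex h2 steps _ hK run_steps c hc hB

/-! ### The geometric argument -/

/-- a point of the facet `x_0 + ... + x_5 = 2` of `P_{M'}` -/
noncomputable def y₀ : Fin 8 → ℝ := ∑ m ∈ H, (1 / 12 : ℝ) • ind (st m)

theorem y₀_mem : y₀ ∈ poly MP := by
  apply (convex_convexHull ℝ _).sum_mem
  · intro i _; norm_num
  · rw [Finset.sum_const]
    have : H.card = 12 := by decide
    rw [this]; norm_num
  · intro m hm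
    exact ind_mem ((MP_isBase (H_base m hm).2).mpr (H_base m hm).1)

theorem sum_smul_y₀ (c : Fin 8 → ℝ) :
    ∑ i, c i * y₀ i = ∑ m ∈ H, (1 / 12 : ℝ) * ∑ i, c i * ind (st m) i := by
  unfold y₀
  simp only [Finset.sum_apply, Pi.smul_apply, smul_eq_mul, Finset.mul_sum]
  rw [Finset.sum_comm]
  exact Finset.sum_congr rfl fun m _ => Finset.sum_congr rfl fun i _ => by ring

/-- if a linear functional takes its maximum on the set of the `e_B`, `B ∈ H`, at `y₀`, it is constant
there -/
theorem const_on_H (c : Fin 8 → ℝ) (h : ∀ m ∈ H, ∑ i, c i * ind (st m) i ≤ ∑ i, c i * y₀ i) :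
    ∀ m ∈ H, ∑ i, c i * ind (st m) i = ∑ i, c i * y₀ i := by
  have hz : ∑ m ∈ H, (∑ i, c i * y₀ i - ∑ i, c i * ind (st m) i) = 0 := by
    rw [Finset.sum_sub_distrib, Finset.sum_const]
    have : H.card = 12 := by decide
    rw [this, sum_smul_y₀, ← Finset.mul_sum]
    simp
  intro m hm
  have := (Finset.sum_eq_zero_iff_of_nonneg (fun m hm => sub_nonneg.mpr (h m hm))).mp hz m hm
  linarith

/-- the sum of the first six coordinates -/
def cS : Fin 8 → ℝ := fun i => if (i : ℕ) < 6 then 1 else 0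

theorem dot_st (c : Fin 8 → ℝ) (m : ℕ) :
    ∑ i, c i * ind (st m) i = ∑ i : Fin 8, if m.testBit i then c i else 0 := by
  apply Finset.sum_congr rfl
  intro i _
  unfold ind Set.indicator
  by_cases h : m.testBit i = true
  · have h' : i ∈ st m := h
    simp [h, h']
  · have h' : i ∉ st m := h
    simp [h, h']

theorem cS_H : ∀ m ∈ H, ∑ i, cS i * ind (st m) i = 2 := by
  intro m hm
  rw [dot_st]
  simp only [H, Finset.mem_insert, Finset.mem_singleton] at hm
  rcases hm with rfl | rfl | rfl | rfl | rfl | rfl | rfl | rfl | rfl | rfl | rfl | rfl <;>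
    simp [Fin.sum_univ_eight, cS, Nat.testBit] <;> norm_num

theorem cS_y₀ : ∑ i, cS i * y₀ i = 2 := by
  rw [sum_smul_y₀, Finset.sum_congr rfl fun m hm => by rw [cS_H m hm], Finset.sum_const]
  have : H.card = 12 := by decide
  rw [this]; norm_num

theorem cS_z : ∑ i, cS i * ind (st 11) i = 3 := by
  rw [dot_st]
  simp [Fin.sum_univ_eight, cS, Nat.testBit]
  norm_num

/-- the points `y₀ + (z - y₀) / (k + 1)`, where `z = e_{013}` -/
noncomputable def yk (k : ℕ) : Fin 8 → ℝ := y₀ + (1 / ((k : ℝ) + 1)) • (ind (st 11) - y₀)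

theorem yk_mem (k : ℕ) : yk k ∈ poly MM := by
  have hk : (0 : ℝ) < (k : ℝ) + 1 := by positivity
  apply (convex_convexHull ℝ _).add_smul_sub_mem (poly_sub y₀_mem)
    (ind_mem ((MM_isBase (by norm_num)).mpr (by decide +kernel)))
  constructor
  · positivity
  · rw [div_le_one hk]
    have : (0 : ℝ) ≤ k := Nat.cast_nonneg k
    linarith

theorem cS_yk (k : ℕ) : 2 < ∑ i, cS i * yk k i := by
  have h1 : ∑ i, cS i * yk k i = ∑ i, cS i * y₀ i + (1 / ((k : ℝ) + 1)) *
      (∑ i, cS i * ind (st 11) i - ∑ i, cS i * y₀ i) := by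
    unfold yk
    rw [← Finset.sum_sub_distrib, Finset.mul_sum, ← Finset.sum_add_distrib]
    apply Finset.sum_congr rfl
    intro i _
    simp only [Pi.add_apply, Pi.smul_apply, Pi.sub_apply, smul_eq_mul]
    ring
  rw [h1, cS_y₀, cS_z]
  have : (0 : ℝ) < 1 / ((k : ℝ) + 1) := by positivity
  linarith

theorem yk_tendsto : Tendsto yk atTop (𝓝 y₀) := by
  have h1 : Tendsto (fun k : ℕ => (1 / ((k : ℝ) + 1))) atTop (𝓝 0) :=
    tendsto_one_div_add_atTop_nhds_zero_nat
  have h2 : Tendsto (fun k : ℕ => y₀ + (1 / ((k : ℝ) + 1)) • (ind (st 11) - y₀)) atTop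
      (𝓝 (y₀ + (0 : ℝ) • (ind (st 11) - y₀))) := (h1.smul_const _).const_add _
  rw [zero_smul, add_zero] at h2
  exact h2

/-- Some cell contains `y₀` and one of the points `yk`. -/
theorem exists_cell {𝒞 : Set (Matroid (Fin 8))} (h : IsMatroidSubdivision MM 𝒞) :
    ∃ N ∈ 𝒞, y₀ ∈ poly N ∧ ∃ k, yk k ∈ poly N := by
  have h1 : ∀ k, ∃ N ∈ 𝒞, yk k ∈ poly N := by
    intro k
    have := yk_mem k
    rw [← h.cover] at this
    simpa using this
  choose N hN hy using h1
  obtain ⟨𝔅, h𝔅⟩ := Finite.exists_infinite_fiber (fun k => {B : Set (Fin 8) | (N k).IsBase B})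
  obtain ⟨⟨k₀, hk₀⟩⟩ := h𝔅.nonempty
  have hpoly : ∀ k, {B : Set (Fin 8) | (N k).IsBase B} = 𝔅 → poly (N k) = poly (N k₀) := by
    intro k hk
    have e : {B : Set (Fin 8) | (N k).IsBase B} = {B : Set (Fin 8) | (N k₀).IsBase B} :=
      hk.trans hk₀.symm
    have e' : ∀ B, (N k).IsBase B ↔ (N k₀).IsBase B := fun B => by
      have := Set.ext_iff.mp e B
      exact this
    unfold poly
    simp only [e']
  refine ⟨N k₀, hN k₀, ?_, k₀, hy k₀⟩
  apply (poly_closed (N k₀)).mem_of_frequently_of_tendsto _ yk_tendsto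
  have hinf : Set.Infinite ((fun k => {B : Set (Fin 8) | (N k).IsBase B}) ⁻¹' {𝔅}) :=
    Set.infinite_coe_iff.mp h𝔅
  rw [Nat.frequently_atTop_iff_infinite]
  apply hinf.mono
  intro k hk
  have := hy k
  rw [hpoly k hk] at this
  exact this

theorem not_cell {𝒞 : Set (Matroid (Fin 8))} (h : IsMatroidSubdivision MM 𝒞) :
    ∀ N ∈ 𝒞, poly N ≠ poly MP := by
  intro N₀ hN₀ heq
  obtain ⟨N, hN, hy, k, hk⟩ := exists_cell h
  have hsub : poly N ⊆ poly MM := by
    rw [← h.cover]
    exact subset_biUnion_of_mem (u := fun N => poly N) hN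
  have hy' : y₀ ∈ poly N ∩ poly N₀ := ⟨hy, heq ▸ y₀_mem⟩
  obtain ⟨hf1, hf2⟩ := h.face N hN N₀ hN₀
  -- the face of `P_{M'}`
  have hH : ∀ m ∈ H, ind (st m) ∈ poly N₀ := fun m hm => by
    rw [heq]; exact ind_mem ((MP_isBase (H_base m hm).2).mpr (H_base m hm).1)
  have hHN : ∀ m ∈ H, ind (st m) ∈ poly N ∩ poly N₀ := by
    rcases hf2 with h0 | ⟨c, hc⟩
    · rw [h0] at hy'; exact absurd hy' (notMem_empty _)
    · have hyc := hy'
      rw [hc] at hyc
      have hcon := const_on_H c fun m hm => hyc.2 _ (hH m hm)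
      intro m hm
      rw [hc]
      refine ⟨hH m hm, fun x hx => ?_⟩
      rw [hcon m hm]
      exact hyc.2 x hx
  -- the face of `P_N`
  obtain ⟨c, hc⟩ : ∃ c : Fin 8 → ℝ, poly N ∩ poly N₀ =
      {x | x ∈ poly N ∧ ∀ y ∈ poly N, ∑ i, c i * y i ≤ ∑ i, c i * x i} := by
    rcases hf1 with h0 | h1
    · rw [h0] at hy'; exact absurd hy' (notMem_empty _)
    · exact h1
  have hval : ∀ m ∈ H, ∀ m' ∈ H, ∑ i, c i * ind (st m) i = ∑ i, c i * ind (st m') i := by
    intro m hm m' hm'
    have a1 := hHN m hm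
    have a2 := hHN m' hm'
    have b1 := a1
    have b2 := a2
    rw [hc] at b1 b2
    exact le_antisymm (b2.2 _ a1.1) (b1.2 _ a2.1)
  have hpair : ∀ m ∈ [67, 84, 104], ∑ i, c i * ind (st m) i = ∑ i, c i * ind (st 69) i := by
    have e1 := hval 69 (by decide) 73 (by decide)
    have e2 := hval 69 (by decide) 81 (by decide)
    have e3 := hval 69 (by decide) 97 (by decide)
    have e4 := hval 69 (by decide) 70 (by decide)
    have e5 := hval 69 (by decide) 74 (by decide)
    have e6 := hval 69 (by decide) 82 (by decide)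
    have e7 := hval 69 (by decide) 98 (by decide)
    have e8 := hval 69 (by decide) 76 (by decide)
    have e9 := hval 69 (by decide) 100 (by decide)
    have e10 := hval 69 (by decide) 88 (by decide)
    have e11 := hval 69 (by decide) 112 (by decide)
    intro m hm
    simp only [dot_st] at *
    simp only [List.mem_cons, List.not_mem_nil, or_false] at hm
    simp [Fin.sum_univ_eight, Nat.testBit] at e1 e2 e3 e4 e5 e6 e7 e8 e9 e10 e11
    rcases hm with rfl | rfl | rfl <;> simp [Fin.sum_univ_eight, Nat.testBit] <;> linarith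
  have h3 : ∀ m ∈ [67, 84, 104], ¬ N.IsBase (st m) := by
    intro m hm hb
    have hm256 : m < 256 := by
      simp only [List.mem_cons, List.not_mem_nil, or_false] at hm
      omega
    have h69 := hHN 69 (by decide)
    rw [hc] at h69
    have hmem : ind (st m) ∈ poly N ∩ poly N₀ := by
      rw [hc]
      refine ⟨ind_mem hb, fun x hx => ?_⟩
      rw [hpair m hm]
      exact h69.2 x hx
    have h4 := isBase_of_mem (heq ▸ hmem.2)
    rw [MP_isBase hm256] at h4
    have h5 := pairs_not
    rw [List.all_eq_true] at h5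
    have h6 := h5 m hm
    rw [h4] at h6
    exact absurd h6 (by decide)
  -- a basis on the other side
  obtain ⟨B, hB, hB2⟩ : ∃ B, N.IsBase B ∧ 2 < ∑ i, cS i * ind B i := by
    by_contra hcon
    push Not at hcon
    have := le_of_poly (c := cS) hcon _ hk
    have h2 := cS_yk k
    linarith
  have hBM : ∀ B, N.IsBase B → MM.IsBase B := fun B hB => isBase_of_mem (hsub (ind_mem hB))
  have h2 : ∀ m ∈ H, N.IsBase (st m) := fun m hm => isBase_of_mem (hHN m hm).1
  -- `B` has three elements, so it does not contain `6` and `7`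
  obtain ⟨u, hu, rfl⟩ := exists_st B
  have hTu := (MM_isBase hu).mp (hBM _ hB)
  rw [dot_st] at hB2
  have hcount : ((∑ i : Fin 8, if u.testBit i && decide ((i : ℕ) < 6) then 1 else 0 : ℕ) : ℝ) =
      ∑ i : Fin 8, if u.testBit i then cS i else 0 := by
    push_cast
    apply Finset.sum_congr rfl
    intro i _
    unfold cS
    by_cases h1 : u.testBit i = true <;> by_cases h2 : (i : ℕ) < 6 <;> simp [h1, h2]
  rw [← hcount] at hB2
  have hB3 : 2 < ∑ i : Fin 8, if u.testBit i && decide ((i : ℕ) < 6) then 1 else 0 := by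
    exact_mod_cast hB2
  have hall : ((List.range 256).all fun u => !TM.testBit u ||
      !(Nat.ble 3 (∑ i : Fin 8, if u.testBit i && decide ((i : ℕ) < 6) then 1 else 0)) ||
      (!u.testBit 6 && !u.testBit 7)) = true := by decide +kernel
  rw [List.all_eq_true] at hall
  have h8 := hall u (List.mem_range.mpr hu)
  have hble : Nat.ble 3 (∑ i : Fin 8, if u.testBit i && decide ((i : ℕ) < 6) then 1 else 0) = true :=
    Nat.ble_eq.mpr hB3
  rw [hTu, hble] at h8
  simp only [Bool.not_true, Bool.false_or, Bool.and_eq_true, Bool.not_eq_true'] at h8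
  refine no_matroid N hBM h2 h3 hB ?_ ?_
  · rw [mem_st]
    change ¬ u.testBit 6 = true
    rw [h8.1]; decide
  · rw [mem_st]
    change ¬ u.testBit 7 = true
    rw [h8.2]; decide

/-- **Main theorem.** There are connected matroids `M`, `M'` on eight elements with
`P_{M'} ⊊ P_M` such that `P_{M'}` is not a cell of any matroid subdivision of `P_M`. -/
theorem result : ∃ M M' : Matroid (Fin 8), M.E = univ ∧ M'.E = univ ∧ IsConnected M ∧
    IsConnected M' ∧ poly M' ⊂ poly M ∧
    ∀ 𝒞 : Set (Matroid (Fin 8)), IsMatroidSubdivision M 𝒞 → ∀ N ∈ 𝒞, poly N ≠ poly M' := by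
  refine ⟨MM, MP, rfl, rfl, mat_connected conn_TM, mat_connected conn_TP, ?_, fun 𝒞 h => not_cell h⟩
  rw [Set.ssubset_iff_exists]
  refine ⟨poly_sub, ind (st 11), ind_mem ((MM_isBase (by norm_num)).mpr (by decide +kernel)),
    fun h => ?_⟩
  have h1 := isBase_of_mem h
  rw [MP_isBase (by norm_num)] at h1
  exact absurd h1 (by decide +kernel)

end Pool.Agent.Results.MP_454fc7_co.NotACell
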